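import Pool.Agent.TH930.RS.Gen
import Pool.Agent.TH930.MV.Loc

set_option autoImplicit false

/-! Matthews' map and the trajectories which avoid the multiples of 3: their number in intervals, the
number of those which stay above a level, and the number of unrelated ones. -/

namespace Pool.Agent.Results.MP_9d5c58_nt.AvoidingLaw

open Finset Pool.Agent.H319R3.GC Pool.Agent.TH930.GH Pool.Agent.TH930.RS

/-- the map of the problem -/
def T (x : ℤ) : ℤ :=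
  if x % 3 = 0 then 2 * x else if x % 3 = 1 then (7 * x + 2) / 3 else (x - 2) / 3

/-- no iterate of `x` is a multiple of 3 -/
def Avoids (x : ℤ) : Prop := ∀ k : ℕ, ¬ (3 : ℤ) ∣ T^[k] x

/-- some iterate of `x` is `-1`, `-2` or `-4` -/
def Reaches (x : ℤ) : Prop := ∃ k : ℕ, T^[k] x = -1 ∨ T^[k] x = -2 ∨ T^[k] x = -4

/-- the multipliers -/
def mm (i : ℕ) : ℤ := if i = 1 then 7 else 1

/-- the shifts -/
def rr (i : ℕ) : ℤ := if i = 1 then -2 else if i = 2 then 2 else 0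

lemma adm : Adm 3 mm rr := by
  refine ⟨by norm_num, ?_, ?_, by decide, by decide⟩
  · intro i hi
    interval_cases i
    · simp [mm, isCoprime_one_left]
    · show IsCoprime (7 : ℤ) ((3 : ℕ) : ℤ)
      exact ⟨1, -2, by norm_num⟩
    · simp [mm, isCoprime_one_left]
  · intro i hi
    interval_cases i <;> decide

lemma cop : Cop 3 mm rr := ⟨adm.two_le, adm.cop, adm.adm⟩

lemma Tm_eq {x : ℤ} (h : ¬ (3 : ℤ) ∣ x) : Tm 3 mm rr x = T x := by
  have h0 : x % 3 ≠ 0 := fun h0 => h (Int.dvd_of_emod_eq_zero h0)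
  have h1 : x % ((3 : ℕ) : ℤ) = x % 3 := by norm_num
  unfold Tm T
  rw [h1]
  rcases (by omega : x % 3 = 1 ∨ x % 3 = 2) with h2 | h2
  · rw [h2, if_neg (by norm_num), if_pos rfl]
    show (mm 1 * x - rr 1) / ((3 : ℕ) : ℤ) = (7 * x + 2) / 3
    show (7 * x - (-2)) / ((3 : ℕ) : ℤ) = (7 * x + 2) / 3
    norm_num
  · rw [h2, if_neg (by norm_num), if_neg (by norm_num)]
    show (mm 2 * x - rr 2) / ((3 : ℕ) : ℤ) = (x - 2) / 3
    show (1 * x - 2) / ((3 : ℕ) : ℤ) = (x - 2) / 3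
    norm_num

lemma iter_eq {x : ℤ} (h : Avoids x) (j : ℕ) : (Tm 3 mm rr)^[j] x = T^[j] x := by
  induction j with
  | zero => rfl
  | succ j ih => rw [Function.iterate_succ_apply', Function.iterate_succ_apply', ih, Tm_eq (h j)]

lemma rs_of {x : ℤ} (h : Avoids x) : Rs 3 mm rr {1, 2} x := by
  intro j
  rw [iter_eq h j]
  have h0 := h j
  have h1 : (T^[j] x) % ((3 : ℕ) : ℤ) = (T^[j] x) % 3 := by norm_num
  rw [h1]
  have h2 : (T^[j] x) % 3 ≠ 0 := fun h2 => h0 (Int.dvd_of_emod_eq_zero h2)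
  rcases (by omega : (T^[j] x) % 3 = 1 ∨ (T^[j] x) % 3 = 2) with h3 | h3
  · rw [h3]; decide
  · rw [h3]; decide

lemma of_rs {x : ℤ} (h : Rs 3 mm rr {1, 2} x) : Avoids x := by
  have h1 : ∀ j, ¬ (3 : ℤ) ∣ (Tm 3 mm rr)^[j] x := by
    intro j h2
    have h3 := h j
    have h4 : ((Tm 3 mm rr)^[j] x) % ((3 : ℕ) : ℤ) = 0 := by
      have : ((3 : ℕ) : ℤ) = 3 := by norm_num
      rw [this]
      exact Int.emod_eq_zero_of_dvd h2
    rw [h4] at h3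
    exact absurd h3 (by decide)
  have h2 : ∀ j, (Tm 3 mm rr)^[j] x = T^[j] x := by
    intro j
    induction j with
    | zero => rfl
    | succ j ih =>
      rw [Function.iterate_succ_apply', Function.iterate_succ_apply', ← ih, Tm_eq (h1 j)]
  intro j
  rw [← h2 j]
  exact h1 j

lemma av_of {x : ℤ} (h : Avoids x) (n : ℕ) : Pool.Agent.TH930.MV.Av n x := by
  intro j _ h0
  exact h j (Int.dvd_of_emod_eq_zero h0)

lemma sum_le : ∑ j ∈ ({1, 2} : Finset ℕ), (|(mm j : ℝ)| / (3 : ℕ)) ^ ((2 : ℝ) / 15) ≤ 1.9836 := by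
  have h1 : |(mm 1 : ℝ)| / ((3 : ℕ) : ℝ) = 7 / 3 := by
    have : mm 1 = 7 := rfl
    rw [this]; norm_num
  have h2 : |(mm 2 : ℝ)| / ((3 : ℕ) : ℝ) = 1 / 3 := by
    have : mm 2 = 1 := rfl
    rw [this]; norm_num
  have key : ∀ a b : ℝ, 0 ≤ a → 0 ≤ b → a ^ 2 ≤ b ^ 15 → a ^ ((2 : ℝ) / 15) ≤ b := by
    intro a b ha hb hab
    have h3 : a ^ ((2 : ℝ) / 15) = (a ^ 2) ^ ((1 : ℝ) / 15) := by
      rw [← Real.rpow_natCast a 2, ← Real.rpow_mul ha]
      norm_num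
    rw [h3]
    calc (a ^ 2) ^ ((1 : ℝ) / 15) ≤ (b ^ 15) ^ ((1 : ℝ) / 15) :=
          Real.rpow_le_rpow (by positivity) hab (by norm_num)
      _ = b := by
          rw [← Real.rpow_natCast b 15, ← Real.rpow_mul hb]
          norm_num
  rw [Finset.sum_pair (by norm_num), h1, h2]
  have h3 := key (7 / 3) (1.1197 : ℝ) (by norm_num) (by norm_num) (by norm_num)
  have h4 := key (1 / 3) (0.8638 : ℝ) (by norm_num) (by norm_num) (by norm_num)
  linarith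

lemma pow_le {X : ℝ} {k : ℕ} (hk : (3 : ℝ) ^ k ≤ X) : (1.9957 : ℝ) ^ k ≤ X ^ (0.629 : ℝ) := by
  have h2 : (1.9957 : ℝ) ≤ (3 : ℝ) ^ (0.629 : ℝ) := by
    have h3 : (1.9957 : ℝ) ^ 1000 ≤ (3 : ℝ) ^ 629 := by
      have e1 : (1.9957 : ℝ) ^ 250 ≤ 1.316 * (3 : ℝ) ^ 157 := by norm_num
      have e2 : (1.316 : ℝ) ^ 4 ≤ 3 := by norm_num
      calc (1.9957 : ℝ) ^ 1000 = ((1.9957 : ℝ) ^ 250) ^ 4 := by rw [← pow_mul]
        _ ≤ (1.316 * (3 : ℝ) ^ 157) ^ 4 := pow_le_pow_left₀ (by positivity) e1 4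
        _ = (1.316 : ℝ) ^ 4 * (3 : ℝ) ^ 628 := by rw [mul_pow, ← pow_mul]
        _ ≤ 3 * (3 : ℝ) ^ 628 := mul_le_mul_of_nonneg_right e2 (by positivity)
        _ = (3 : ℝ) ^ 629 := (pow_succ' (3 : ℝ) 628).symm
    have h4 : (3 : ℝ) ^ 629 = ((3 : ℝ) ^ (0.629 : ℝ)) ^ 1000 := by
      rw [← Real.rpow_natCast ((3 : ℝ) ^ (0.629 : ℝ)) 1000, ← Real.rpow_mul (by norm_num),
        ← Real.rpow_natCast (3 : ℝ) 629]
      norm_num
    rw [h4] at h3
    exact le_of_pow_le_pow_left₀ (by norm_num) (by positivity) h3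
  calc (1.9957 : ℝ) ^ k ≤ ((3 : ℝ) ^ (0.629 : ℝ)) ^ k := pow_le_pow_left₀ (by norm_num) h2 k
    _ = ((3 : ℝ) ^ k) ^ (0.629 : ℝ) := by
        rw [← Real.rpow_natCast, ← Real.rpow_mul (by norm_num), mul_comm, Real.rpow_mul (by norm_num),
          Real.rpow_natCast]
    _ ≤ X ^ (0.629 : ℝ) := Real.rpow_le_rpow (by positivity) hk (by norm_num)

/-- the numbers of avoiding integers in an interval of length `X`, of those below `3 ^ k` which stay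
above `3 ^ l`, of those which do not reach the known cycles, and of those with pairwise disjoint
trajectories -/
theorem result : ∃ C : ℝ, 0 < C ∧
    (∀ c X : ℝ, 1 ≤ X →
      (({x : ℤ | (c ≤ x ∧ (x : ℝ) ≤ c + X) ∧ Avoids x}.ncard : ℕ) : ℝ) ≤ C * X ^ (0.629 : ℝ)) ∧
    (∀ k l : ℕ, l ≤ k →
      (({x : ℤ | |x| < 3 ^ k ∧ Avoids x ∧ ∀ j : ℕ, 3 ^ l ≤ |T^[j] x|}.ncard : ℕ) : ℝ) ≤
        C * ((k : ℝ) + 1) ^ 11 * ((1.9957 : ℝ) ^ (k - l) * (1.9836 : ℝ) ^ l)) ∧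
    (∀ k l : ℕ, l ≤ k → (∀ x : ℤ, |x| < 3 ^ l → Avoids x → Reaches x) →
      (({x : ℤ | |x| < 3 ^ k ∧ Avoids x ∧ ¬ Reaches x}.ncard : ℕ) : ℝ) ≤
        C * ((k : ℝ) + 1) ^ 11 * ((1.9957 : ℝ) ^ (k - l) * (1.9836 : ℝ) ^ l)) ∧
    (∀ k : ℕ, ∀ S : Finset ℤ, (∀ x ∈ S, |x| < 3 ^ k ∧ Avoids x) →
      (∀ x ∈ S, ∀ y ∈ S, x ≠ y → ∀ i j : ℕ, T^[i] x ≠ T^[j] y) →
      (S.card : ℝ) ≤ C * ((k : ℝ) + 1) * (1.9836 : ℝ) ^ k) := by
  have hA : ({1, 2} : Finset ℕ) ⊆ range 3 := by decide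
  have hc2 : (({1, 2} : Finset ℕ).card : ℝ) = 2 := by norm_num
  obtain ⟨C0, hC0, H0⟩ := Pool.Agent.TH930.MV.main_i
  have hK : ∀ K : ℕ, ∀ S : Finset ℤ, (∀ x ∈ S, Rs 3 mm rr {1, 2} x) →
      (∀ x ∈ S, ∀ z ∈ S, ((x - z : ℤ) : ℝ) ≤ ((3 : ℕ) : ℝ) ^ K) →
      (S.card : ℝ) ≤ (C0 * 1.9957) * (1.9957 : ℝ) ^ K := by
    intro K S h1 h2
    rcases S.eq_empty_or_nonempty with h3 | h3
    · rw [h3, card_empty, Nat.cast_zero]
      positivity
    have h4 := H0 (K + 1) (S.min' h3) S (by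
      intro x hx
      refine ⟨⟨S.min'_le x hx, ?_⟩, av_of (of_rs (h1 x hx))⟩
      have h5 := h2 x hx _ (S.min'_mem h3)
      have h6 : x - S.min' h3 ≤ 3 ^ K := by exact_mod_cast h5
      have h7 : (3 : ℤ) ^ (K + 1) = 3 * 3 ^ K := pow_succ' _ _
      have h8 : (0 : ℤ) < 3 ^ K := by positivity
      linarith)
    rw [pow_succ] at h4
    linarith
  obtain ⟨C1, hC1, H1⟩ := law_gen adm cop hA (s := (2 : ℝ) / 15) (ρ := 1.9836 / 1.9957)
    (κ := 1.9957) (C0 := C0 * 1.9957)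
    (by norm_num) (by norm_num) (by norm_num) (by positivity) (by norm_num) (by norm_num)
    (by refine sum_le.trans (le_of_eq ?_); norm_num) hK
  obtain ⟨C2, hC2, H2⟩ := Pool.Agent.TH930.RS.unrelated adm cop hA (s := (2 : ℝ) / 15)
    (ρ := 1.9836 / 2) (by norm_num) (by rw [hc2]; norm_num)
    (by rw [hc2]; refine sum_le.trans (le_of_eq ?_); norm_num)
  rw [hc2] at H2
  have hfin : ∀ (k : ℕ) (P : ℤ → Prop), {x : ℤ | |x| < 3 ^ k ∧ P x}.Finite := by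
    intro k P
    apply (Set.finite_Icc (-(3 : ℤ) ^ k) (3 ^ k)).subset
    intro x hx
    have := abs_lt.1 hx.1
    exact ⟨this.1.le, this.2.le⟩
  have E1 : ∀ k l : ℕ, l ≤ k → ∀ V : Set ℤ, V.Finite →
      (∀ x ∈ V, |x| < 3 ^ k ∧ Avoids x ∧ ∀ j : ℕ, 3 ^ l ≤ |T^[j] x|) →
      ((V.ncard : ℕ) : ℝ) ≤ (2 * C0 + C1 + C2) * ((k : ℝ) + 1) ^ 11 *
        ((1.9957 : ℝ) ^ (k - l) * (1.9836 : ℝ) ^ l) := by
    intro k l hlk V hV hV2
    have h1 := H1 k l hV.toFinset (by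
      intro x hx
      rw [Set.Finite.mem_toFinset] at hx
      obtain ⟨h1, h2, h3⟩ := hV2 x hx
      refine ⟨by exact_mod_cast h1, rs_of h2, fun j => ?_⟩
      rw [iter_eq h2 j]
      exact_mod_cast h3 j)
    rw [Set.ncard_eq_toFinset_card V hV]
    refine h1.trans ?_
    have h3 : (2 * 3 + 5) = 11 := by norm_num
    rw [h3]
    have h5 : (1.9957 : ℝ) ^ k * (1.9836 / 1.9957) ^ l = (1.9957 : ℝ) ^ (k - l) * (1.9836 : ℝ) ^ l := by
      have h6 : (1.9957 : ℝ) ^ k = (1.9957 : ℝ) ^ (k - l) * (1.9957 : ℝ) ^ l := by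
        rw [← pow_add]; congr 1; omega
      rw [h6, div_pow]
      field_simp
    rw [h5]
    have h4 : C1 ≤ 2 * C0 + C1 + C2 := by linarith
    gcongr
  refine ⟨2 * C0 + C1 + C2, by positivity, ?_, ?_, ?_, ?_⟩
  · intro c X hX
    obtain ⟨k, hk1, hk2⟩ := exists_nat_pow_near hX (show (1 : ℝ) < 3 by norm_num)
    have hf : {x : ℤ | (c ≤ x ∧ (x : ℝ) ≤ c + X) ∧ Avoids x}.Finite := by
      apply (Set.finite_Icc ⌈c⌉ ⌊c + X⌋).subset
      intro x hx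
      exact ⟨Int.ceil_le.2 hx.1.1, Int.le_floor.2 hx.1.2⟩
    rw [Set.ncard_eq_toFinset_card _ hf]
    have h1 := H0 (k + 1) ⌈c⌉ hf.toFinset (by
      intro x hx
      rw [Set.Finite.mem_toFinset] at hx
      refine ⟨⟨Int.ceil_le.2 hx.1.1, ?_⟩, av_of hx.2⟩
      have h2 := Int.le_ceil c
      have : (x : ℝ) < (⌈c⌉ : ℤ) + 3 ^ (k + 1) := by linarith [hx.1.2]
      exact_mod_cast this)
    refine h1.trans ?_
    have h5 := pow_le hk1
    have h6 : (0 : ℝ) ≤ X ^ (0.629 : ℝ) := by positivity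
    calc C0 * (1.9957 : ℝ) ^ (k + 1) = C0 * 1.9957 * (1.9957 : ℝ) ^ k := by rw [pow_succ]; ring
      _ ≤ C0 * 1.9957 * X ^ (0.629 : ℝ) := mul_le_mul_of_nonneg_left h5 (by positivity)
      _ ≤ (2 * C0 + C1 + C2) * X ^ (0.629 : ℝ) := by
          apply mul_le_mul_of_nonneg_right _ h6
          linarith
  · intro k l hlk
    exact E1 k l hlk _ (hfin k _) (fun x hx => hx)
  · intro k l hlk hR
    apply E1 k l hlk _ (hfin k _)
    rintro x ⟨h1, h2, h3⟩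
    refine ⟨h1, h2, fun j => ?_⟩
    by_contra hj
    push Not at hj
    have h4 : Avoids (T^[j] x) := fun i => by
      rw [← Function.iterate_add_apply]
      exact h2 (i + j)
    obtain ⟨i, hi⟩ := hR _ hj h4
    exact h3 ⟨i + j, by rw [Function.iterate_add_apply]; exact hi⟩
  · intro k S hS hd
    have h1 := H2 k S (fun x hx => ⟨by exact_mod_cast (hS x hx).1, rs_of (hS x hx).2⟩) (by
      intro x hx y hy hxy i j
      rw [iter_eq (hS x hx).2, iter_eq (hS y hy).2]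
      exact hd x hx y hy hxy i j)
    refine h1.trans ?_
    have h2 : (2 * (1.9836 / 2) : ℝ) = 1.9836 := by norm_num
    rw [h2]
    have h4 : C2 ≤ 2 * C0 + C1 + C2 := by linarith
    gcongr

end Pool.Agent.Results.MP_9d5c58_nt.AvoidingLaw
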